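import Mathlib

namespace Pool.Agent.LibTT45

/-- Chevalley. -/
theorem chev {R L k : Type*} [CommRing R] [Field L] [Field k] (j : R →+* L)
    (hj : Function.Injective j) (ψ : R →+* k) :
    ∃ V : ValuationSubring L, (∀ x, V.valuation (j x) ≤ 1) ∧
      ∀ x, ψ x = 0 → V.valuation (j x) < 1 := by
  let e : R ≃+* j.range := RingEquiv.ofBijective j.rangeRestrict
    ⟨fun a b h => hj (congrArg Subtype.val h), j.rangeRestrict_surjective⟩
  let I : Ideal j.range := RingHom.ker (ψ.comp (e.symm : j.range →+* R))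
  have hI : I ≠ ⊤ := by
    intro h
    have h1 : (1 : j.range) ∈ I := by rw [h]; trivial
    rw [RingHom.mem_ker, map_one] at h1
    exact one_ne_zero h1
  obtain ⟨V, hV1, hV2⟩ := Ideal.image_subset_nonunits_valuationSubring I hI
  refine ⟨V, fun x => ?_, fun x hx => ?_⟩
  · rw [ValuationSubring.valuation_le_one_iff]
    exact hV1 ⟨x, rfl⟩
  · rw [← ValuationSubring.mem_nonunits_iff]
    apply hV2
    refine ⟨e x, ?_, rfl⟩
    change e x ∈ RingHom.ker _
    rw [RingHom.mem_ker, RingHom.comp_apply]
    have : (e.symm : j.range →+* R) (e x) = x := e.symm_apply_apply x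
    rw [this, hx]

/-- Extension of a valuation ring from a subfield, with a transcendental element of
infinitely small value. -/
theorem one_step {F L : Type*} [Field F] [Field L] [Algebra F L] (K : IntermediateField F L)
    (V₀ : ValuationSubring L) (t : L) (ht : Transcendental K t) :
    ∃ V : ValuationSubring L, (∀ x ∈ K, V₀.valuation x ≤ 1 → V.valuation x ≤ 1) ∧
      (∀ x ∈ K, V₀.valuation x < 1 → V.valuation x < 1) ∧
      ∀ b ∈ K, ∀ m : ℕ, 0 < m → V.valuation (b * t ^ m) < 1 := by
  let ι : K →+* L := algebraMap K L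
  -- evaluation at `0`, with values in `L`
  let ev : Polynomial K →+* L := ι.comp (Polynomial.evalRingHom (0 : K))
  let R : Subring (Polynomial K) := V₀.toSubring.comap ev
  let j : R →+* L := ((Polynomial.aeval t : Polynomial K →ₐ[K] L).toRingHom).comp R.subtype
  have hj : Function.Injective j := by
    intro f g hfg
    exact Subtype.ext (transcendental_iff_injective.1 ht hfg)
  let ψ₀ : R →+* V₀ := (ev.comp R.subtype).codRestrict V₀.toSubring (fun f => f.2)
  let ψ : R →+* IsLocalRing.ResidueField V₀ := (IsLocalRing.residue V₀).comp ψ₀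
  have hψ : ∀ f : R, V₀.valuation (ev f.1) < 1 → ψ f = 0 := by
    intro f hf
    change IsLocalRing.residue V₀ (ψ₀ f) = 0
    rw [IsLocalRing.residue_eq_zero_iff]
    exact (ValuationSubring.valuation_lt_one_iff V₀ (ψ₀ f)).2 hf
  obtain ⟨V, hV1, hV2⟩ := chev j hj ψ
  have hconst : ∀ x : L, ∀ hx : x ∈ K, ev (Polynomial.C ⟨x, hx⟩) = x := by
    intro x hx
    change ι (Polynomial.eval 0 (Polynomial.C (⟨x, hx⟩ : K))) = x
    rw [Polynomial.eval_C]
    rfl
  have haev : ∀ x : L, ∀ hx : x ∈ K, Polynomial.aeval t (Polynomial.C (⟨x, hx⟩ : K)) = x := by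
    intro x hx
    rw [Polynomial.aeval_C]
    rfl
  refine ⟨V, fun x hx h => ?_, fun x hx h => ?_, fun b hb m hm => ?_⟩
  · have hmem : Polynomial.C (⟨x, hx⟩ : K) ∈ R := by
      change ev _ ∈ V₀.toSubring
      rw [hconst x hx]
      exact (ValuationSubring.valuation_le_one_iff V₀ x).1 h
    have := hV1 ⟨_, hmem⟩
    change V.valuation (Polynomial.aeval t (Polynomial.C (⟨x, hx⟩ : K))) ≤ 1 at this
    rwa [haev x hx] at this
  · have hmem : Polynomial.C (⟨x, hx⟩ : K) ∈ R := by
      change ev _ ∈ V₀.toSubring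
      rw [hconst x hx]
      exact (ValuationSubring.valuation_le_one_iff V₀ x).1 h.le
    have := hV2 ⟨_, hmem⟩ (hψ _ (by
      change V₀.valuation (ev (Polynomial.C (⟨x, hx⟩ : K))) < 1
      rw [hconst x hx]
      exact h))
    change V.valuation (Polynomial.aeval t (Polynomial.C (⟨x, hx⟩ : K))) < 1 at this
    rwa [haev x hx] at this
  · have hev : ev (Polynomial.C (⟨b, hb⟩ : K) * Polynomial.X ^ m) = 0 := by
      change ι (Polynomial.eval 0 _) = 0
      rw [Polynomial.eval_mul, Polynomial.eval_pow, Polynomial.eval_X, zero_pow hm.ne', mul_zero,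
        map_zero]
    have hmem : Polynomial.C (⟨b, hb⟩ : K) * Polynomial.X ^ m ∈ R := by
      change ev _ ∈ V₀.toSubring
      rw [hev]
      exact Subring.zero_mem _
    have := hV2 ⟨_, hmem⟩ (hψ _ (by
      change V₀.valuation (ev (Polynomial.C (⟨b, hb⟩ : K) * Polynomial.X ^ m)) < 1
      rw [hev, map_zero]
      exact zero_lt_one))
    change V.valuation (Polynomial.aeval t (Polynomial.C (⟨b, hb⟩ : K) * Polynomial.X ^ m)) < 1
      at this
    rwa [map_mul, map_pow, Polynomial.aeval_X, haev b hb] at this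

theorem val_nat {L : Type*} [Field L] (V : ValuationSubring L) (m : ℕ) :
    V.valuation (m : L) ≤ 1 := by
  rw [ValuationSubring.valuation_le_one_iff]
  exact natCast_mem V m

theorem val_int {L : Type*} [Field L] (V : ValuationSubring L) (m : ℤ) :
    V.valuation (m : L) ≤ 1 := by
  rw [ValuationSubring.valuation_le_one_iff]
  exact intCast_mem V m

theorem val_coprime {L : Type*} [Field L] (V : ValuationSubring L) (p c : ℕ)
    (hp : V.valuation (p : L) < 1) (hc : Nat.Coprime p c) : V.valuation (c : L) = 1 := by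
  apply le_antisymm (val_nat V c)
  by_contra h
  push Not at h
  have hb := Nat.gcd_eq_gcd_ab p c
  rw [hc.gcd_eq_one] at hb
  have h1 : (1 : L) = (p : L) * ((p.gcdA c : ℤ) : L) + (c : L) * ((p.gcdB c : ℤ) : L) := by
    exact_mod_cast congrArg (fun x : ℤ => (x : L)) hb
  have h2 : V.valuation ((p : L) * ((p.gcdA c : ℤ) : L)) < 1 := by
    rw [map_mul]
    exact mul_lt_one_of_lt_of_le hp (val_int V _)
  have h3 : V.valuation ((c : L) * ((p.gcdB c : ℤ) : L)) < 1 := by
    rw [map_mul]
    exact mul_lt_one_of_lt_of_le h (val_int V _)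
  have h4 := V.valuation.map_add_lt h2 h3
  rw [← h1, map_one] at h4
  exact lt_irrefl _ h4

theorem val_integral {L : Type*} [Field L] (V : ValuationSubring L) (x : L)
    (hx : IsIntegral ℤ x) : V.valuation x ≤ 1 := by
  rw [ValuationSubring.valuation_le_one_iff]
  have h2 : IsIntegral V x := hx.tower_top
  obtain ⟨y, hy⟩ := IsIntegrallyClosed.isIntegral_iff.1 h2
  rw [← hy]
  exact y.2

end Pool.Agent.LibTT45
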