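import Mathlib
import Pool.Agent.LibTT45.V

namespace Pool.Agent.LibTT45

/-- Extension of a valuation ring of the constants such that algebraically independent elements
have independent values. -/
theorem gen_val {n : ℕ} {L : Type*} [Field L] [Algebra ℂ L] (ζ : Fin n → L)
    (hζ : ∀ i, ζ i ≠ 0) (J : Finset (Fin n))
    (hJ : AlgebraicIndependent ℂ (fun j : J => ζ j)) (V₀ : ValuationSubring L) :
    ∃ V : ValuationSubring L,
      (∀ c : ℂ, V₀.valuation (algebraMap ℂ L c) ≤ 1 → V.valuation (algebraMap ℂ L c) ≤ 1) ∧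
      (∀ c : ℂ, V₀.valuation (algebraMap ℂ L c) < 1 → V.valuation (algebraMap ℂ L c) < 1) ∧
      ∀ a : Fin n → ℤ, (∀ i, i ∉ J → a i = 0) → ∀ c : ℂ, c ≠ 0 →
        V.valuation (algebraMap ℂ L c * ∏ i, ζ i ^ a i) = 1 → a = 0 := by
  classical
  have key : ∀ S : Finset (Fin n), S ⊆ J → ∃ V : ValuationSubring L,
      (∀ c : ℂ, V₀.valuation (algebraMap ℂ L c) ≤ 1 → V.valuation (algebraMap ℂ L c) ≤ 1) ∧
      (∀ c : ℂ, V₀.valuation (algebraMap ℂ L c) < 1 → V.valuation (algebraMap ℂ L c) < 1) ∧
      ∀ a : Fin n → ℤ, (∀ i, i ∉ S → a i = 0) → ∀ c : ℂ, c ≠ 0 →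
        V.valuation (algebraMap ℂ L c * ∏ i, ζ i ^ a i) = 1 → a = 0 := by
    intro S
    induction S using Finset.induction_on with
    | empty =>
      intro _
      exact ⟨V₀, fun c h => h, fun c h => h, fun a ha c _ _ => funext fun i => ha i (by simp)⟩
    | insert j S hj ih =>
      intro hS
      obtain ⟨V, hV1, hV2, hV3⟩ := ih (fun x hx => hS (Finset.mem_insert_of_mem hx))
      have hjJ : j ∈ J := hS (Finset.mem_insert_self j S)
      let K : IntermediateField ℂ L := IntermediateField.adjoin ℂ (ζ '' (S : Set (Fin n)))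
      have htr : Transcendental K (ζ j) := by
        rw [IntermediateField.transcendental_adjoin_iff]
        have h1 := hJ.transcendental_adjoin (s := {i : J | i.1 ∈ S}) (i := ⟨j, hjJ⟩) hj
        have h2 : (fun j : J => ζ j) '' {i : J | i.1 ∈ S} = ζ '' (S : Set (Fin n)) := by
          ext x
          constructor
          · rintro ⟨i, hi, rfl⟩
            exact ⟨i.1, hi, rfl⟩
          · rintro ⟨i, hi, rfl⟩
            exact ⟨⟨i, hS (Finset.mem_insert_of_mem hi)⟩, hi, rfl⟩
        rw [h2] at h1
        exact h1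
      obtain ⟨W, hW1, hW2, hW3⟩ := one_step K V (ζ j) htr
      refine ⟨W, fun c h => hW1 _ (K.algebraMap_mem c) (hV1 c h),
        fun c h => hW2 _ (K.algebraMap_mem c) (hV2 c h), fun a ha c hc h => ?_⟩
      set b : L := algebraMap ℂ L c * ∏ i ∈ Finset.univ.erase j, ζ i ^ a i with hb
      have hbK : b ∈ K := by
        refine K.mul_mem (K.algebraMap_mem c) (prod_mem fun i hi => ?_)
        by_cases hiS : i ∈ S
        · have h1 : ζ i ∈ K := IntermediateField.subset_adjoin ℂ _ ⟨i, hiS, rfl⟩
          exact zpow_mem h1 _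
        · have hij : i ≠ j := Finset.ne_of_mem_erase hi
          rw [ha i (by simp [hij, hiS]), zpow_zero]
          exact K.one_mem
      have hb0 : b ≠ 0 := mul_ne_zero
        ((map_ne_zero (algebraMap ℂ L)).2 hc)
        (Finset.prod_ne_zero_iff.2 fun i _ => zpow_ne_zero _ (hζ i))
      have hfac : algebraMap ℂ L c * ∏ i, ζ i ^ a i = b * ζ j ^ a j := by
        rw [hb, mul_assoc, Finset.prod_erase_mul _ _ (Finset.mem_univ j)]
      rw [hfac] at h
      rcases lt_trichotomy (a j) 0 with hneg | hzero | hpos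
      · exfalso
        have h1 := hW3 b⁻¹ (K.inv_mem hbK) (-(a j)).toNat (by omega)
        have h2 : b⁻¹ * ζ j ^ (-(a j)).toNat = (b * ζ j ^ a j)⁻¹ := by
          rw [← zpow_natCast, Int.toNat_of_nonneg (by omega), zpow_neg]
          exact (mul_inv b (ζ j ^ a j)).symm
        rw [h2, map_inv₀, h, inv_one] at h1
        exact lt_irrefl _ h1
      · rw [hzero, zpow_zero, mul_one] at h
        have hVb : V.valuation b = 1 := by
          rcases lt_trichotomy (V.valuation b) 1 with h1 | h1 | h1
          · exact absurd h (hW2 b hbK h1).ne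
          · exact h1
          · have h2 : V.valuation b⁻¹ < 1 := by
              rw [map_inv₀]
              exact inv_lt_one_of_one_lt₀ h1
            have h3 := hW2 b⁻¹ (K.inv_mem hbK) h2
            rw [map_inv₀, h, inv_one] at h3
            exact absurd h3 (lt_irrefl _)
        refine hV3 a (fun i hi => ?_) c hc ?_
        · by_cases hij : i = j
          · rw [hij, hzero]
          · exact ha i (by simp [hij, hi])
        · rw [hfac, hzero, zpow_zero, mul_one]
          exact hVb
      · exfalso
        have h1 := hW3 b hbK (a j).toNat (by omega)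
        rw [← zpow_natCast, Int.toNat_of_nonneg hpos.le, h] at h1
        exact lt_irrefl _ h1
  exact key J (Finset.Subset.refl J)

end Pool.Agent.LibTT45
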