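import Mathlib
import Pool.Agent.LibTT45.V

namespace Pool.Agent.LibTT45

/-- Valuation rings of `ℂ` above almost all primes at which given nonzero numbers are units. -/
theorem base_val (C : Finset ℂ) (hC : ∀ c ∈ C, c ≠ 0) :
    ∃ N : ℕ, 0 < N ∧ ∀ p : ℕ, p.Prime → ¬ p ∣ N →
      ∃ V : ValuationSubring ℂ, V.valuation (p : ℂ) < 1 ∧ ∀ c ∈ C, V.valuation c = 1 := by
  classical
  let G : Finset ℂ := C ∪ C.image (fun x => x⁻¹)
  let R₀ : Subalgebra ℚ ℂ := Algebra.adjoin ℚ (G : Set ℂ)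
  have hft : Algebra.FiniteType ℚ R₀ :=
    (Subalgebra.fg_iff_finiteType R₀).1 (Subalgebra.fg_adjoin_finset G)
  obtain ⟨𝔫, h𝔫⟩ := Ideal.exists_maximal R₀
  let : Field (R₀ ⧸ 𝔫) := Ideal.Quotient.field 𝔫
  have hfin : Module.Finite ℚ (R₀ ⧸ 𝔫) := finite_of_finite_type_of_isJacobsonRing ℚ (R₀ ⧸ 𝔫)
  have halg : Algebra.IsAlgebraic ℚ (R₀ ⧸ 𝔫) := Algebra.IsAlgebraic.of_finite ℚ _
  have halg' : Algebra.IsAlgebraic ℤ (R₀ ⧸ 𝔫) :=
    (IsFractionRing.comap_isAlgebraic_iff (A := ℤ) (K := ℚ) (C := R₀ ⧸ 𝔫)).2 halg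
  let q : R₀ →+* R₀ ⧸ 𝔫 := Ideal.Quotient.mk 𝔫
  have hmem : ∀ c ∈ C, c ∈ R₀ := fun c hc =>
    Algebra.subset_adjoin (by simp [G, hc])
  have hmem' : ∀ c ∈ C, c⁻¹ ∈ R₀ := fun c hc =>
    Algebra.subset_adjoin (by
      simp only [G, Finset.coe_union, Finset.coe_image, Set.mem_union, Finset.mem_coe,
        Set.mem_image]
      exact Or.inr ⟨c, hc, rfl⟩)
  let T : Finset (R₀ ⧸ 𝔫) := C.attach.image (fun c => q ⟨c.1, hmem c.1 c.2⟩) ∪
    C.attach.image (fun c => q ⟨c.1⁻¹, hmem' c.1 c.2⟩)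
  obtain ⟨y, hy0, hy⟩ := Algebra.IsAlgebraic.exists_integral_multiples ℤ T
  refine ⟨y.natAbs, Int.natAbs_pos.2 hy0, fun p hp hpy => ?_⟩
  have hchar : CharZero (R₀ ⧸ 𝔫) := algebraRat.charZero _
  -- a valuation ring of the number field above `p`
  have : Fact p.Prime := ⟨hp⟩
  obtain ⟨W, -, hW⟩ := chev (Int.castRingHom (R₀ ⧸ 𝔫))
    (by
      intro a b hab
      simpa using hab) (Int.castRingHom (ZMod p))
  have hWp : W.valuation ((p : ℕ) : R₀ ⧸ 𝔫) < 1 := by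
    have := hW (p : ℤ) (by simp)
    simpa using this
  have hWy : W.valuation ((y : ℤ) : R₀ ⧸ 𝔫) = 1 := by
    have h1 : W.valuation ((y.natAbs : ℕ) : R₀ ⧸ 𝔫) = 1 :=
      val_coprime W p _ hWp ((Nat.Prime.coprime_iff_not_dvd hp).2 hpy)
    rcases Int.natAbs_eq y with h | h
    · have h2 : ((y : ℤ) : R₀ ⧸ 𝔫) = ((y.natAbs : ℕ) : R₀ ⧸ 𝔫) :=
        (congrArg (fun x : ℤ => (x : R₀ ⧸ 𝔫)) h).trans (Int.cast_natCast _)
      rw [h2]
      exact h1
    · have h2 : ((y : ℤ) : R₀ ⧸ 𝔫) = -((y.natAbs : ℕ) : R₀ ⧸ 𝔫) :=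
        (congrArg (fun x : ℤ => (x : R₀ ⧸ 𝔫)) h).trans
          ((Int.cast_neg _).trans (congrArg Neg.neg (Int.cast_natCast _)))
      rw [h2, Valuation.map_neg]
      exact h1
  have hT : ∀ z ∈ T, W.valuation z ≤ 1 := by
    intro z hz
    have h1 := val_integral W _ (hy z hz)
    rw [zsmul_eq_mul, map_mul, hWy, one_mul] at h1
    exact h1
  -- transport to `ℂ`
  let R : Subring R₀ := W.toSubring.comap q
  let j : R →+* ℂ := (R₀.val.toRingHom).comp R.subtype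
  have hj : Function.Injective j := by
    intro a b h
    exact Subtype.ext (Subtype.ext h)
  let ψ₀ : R →+* W := (q.comp R.subtype).codRestrict W.toSubring (fun f => f.2)
  let ψ : R →+* IsLocalRing.ResidueField W := (IsLocalRing.residue W).comp ψ₀
  obtain ⟨V, hV1, hV2⟩ := chev j hj ψ
  have hle : ∀ x : ℂ, ∀ hx : x ∈ R₀, W.valuation (q ⟨x, hx⟩) ≤ 1 → V.valuation x ≤ 1 := by
    intro x hx h
    exact hV1 ⟨⟨x, hx⟩, (ValuationSubring.valuation_le_one_iff W _).1 h⟩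
  refine ⟨V, ?_, fun c hc => ?_⟩
  · have hpm : ((p : ℕ) : R₀) ∈ R := by
      change q _ ∈ W.toSubring
      rw [map_natCast]
      exact (ValuationSubring.valuation_le_one_iff W _).1 hWp.le
    have h1 := hV2 ⟨_, hpm⟩ (by
      change IsLocalRing.residue W (ψ₀ _) = 0
      rw [IsLocalRing.residue_eq_zero_iff]
      refine (ValuationSubring.valuation_lt_one_iff W (ψ₀ _)).2 ?_
      change W.valuation (q ((p : ℕ) : R₀)) < 1
      rw [map_natCast]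
      exact hWp)
    have h2 : j ⟨_, hpm⟩ = (p : ℂ) := by
      change (((p : ℕ) : R₀) : ℂ) = p
      simp
    rwa [h2] at h1
  · have h1 : V.valuation c ≤ 1 := hle c (hmem c hc) (hT _ (by
      simp only [T, Finset.mem_union, Finset.mem_image]
      exact Or.inl ⟨⟨c, hc⟩, Finset.mem_attach _ _, rfl⟩))
    have h2 : V.valuation c⁻¹ ≤ 1 := hle c⁻¹ (hmem' c hc) (hT _ (by
      simp only [T, Finset.mem_union, Finset.mem_image]
      exact Or.inr ⟨⟨c, hc⟩, Finset.mem_attach _ _, rfl⟩))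
    apply le_antisymm h1
    rw [map_inv₀] at h2
    have h0 : V.valuation c ≠ 0 := (Valuation.ne_zero_iff _).2 (hC c hc)
    exact (inv_le_one₀ (zero_lt_iff.2 h0)).1 h2

end Pool.Agent.LibTT45
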