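import Mathlib

namespace Pool.Agent.LibTT45

theorem rank_lemma {n d : ℕ} (D : Submodule ℤ (Fin n → ℤ))
    (h : ∀ I : Finset (Fin n), I.card = d + 1 → ∃ v ∈ D, v ≠ 0 ∧ ∀ i, i ∉ I → v i = 0) :
    n ≤ d + Module.finrank ℤ D := by
  classical
  let good : Finset (Fin n) → Prop := fun I => ∀ v ∈ D, (∀ i, i ∉ I → v i = 0) → v = 0
  have h0 : good ∅ := fun v _ hv => funext fun i => hv i (by simp)
  obtain ⟨I, hI⟩ := Finset.exists_maximal (s := Finset.univ.filter good)
    ⟨∅, by simp [h0]⟩
  have hIg : good I := (Finset.mem_filter.1 hI.1).2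
  have hcard : I.card ≤ d := by
    by_contra hc
    push Not at hc
    obtain ⟨I', hI', hI'c⟩ := Finset.exists_subset_card_eq (show d + 1 ≤ I.card from hc)
    obtain ⟨v, hv, hv0, hvI⟩ := h I' hI'c
    exact hv0 (hIg v hv fun i hi => hvI i fun h' => hi (hI' h'))
  have hext : ∀ j : {j // j ∉ I}, ∃ v : D, (v : Fin n → ℤ) j.1 ≠ 0 ∧
      ∀ i, i ∉ insert j.1 I → (v : Fin n → ℤ) i = 0 := by
    intro j
    by_contra hcon
    push Not at hcon
    have hgood : good (insert j.1 I) := by
      intro v hv hvI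
      by_cases hj : v j.1 = 0
      · refine hIg v hv fun i hi => ?_
        by_cases hij : i = j.1
        · rw [hij, hj]
        · exact hvI i (by simp [hij, hi])
      · obtain ⟨i, hi, hi'⟩ := hcon ⟨v, hv⟩ hj
        exact absurd (hvI i hi) hi'
    have h1 := hI.2 (Finset.mem_filter.2 ⟨Finset.mem_univ _, hgood⟩) (Finset.subset_insert _ _)
    exact j.2 (h1 (Finset.mem_insert_self _ _))
  choose v hv1 hv2 using hext
  have hli : LinearIndependent ℤ v := by
    rw [Fintype.linearIndependent_iff]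
    intro c hc j
    have h1 := congrArg (fun w : D => (w : Fin n → ℤ) j.1) hc
    simp only [Submodule.coe_sum, Submodule.coe_smul, Finset.sum_apply, Pi.smul_apply,
      smul_eq_mul, Submodule.coe_zero, Pi.zero_apply] at h1
    rw [Finset.sum_eq_single j] at h1
    · exact (mul_eq_zero.1 h1).resolve_right (hv1 j)
    · intro k _ hkj
      rw [hv2 k j.1, mul_zero]
      rw [Finset.mem_insert]
      rintro (h2 | h2)
      · exact hkj (Subtype.ext h2.symm)
      · exact j.2 h2
    · intro h2
      exact absurd (Finset.mem_univ _) h2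
  have h2 := hli.fintype_card_le_finrank
  rw [Fintype.card_subtype_compl, Fintype.card_fin, Fintype.card_coe] at h2
  omega

theorem sum_lemma {n : ℕ} (A D : Submodule ℤ (Fin n → ℤ)) (J : Finset (Fin n))
    (h : ∀ a ∈ A, ∀ b ∈ D, ∀ c : Fin n → ℤ, (∀ i, i ∉ J → c i = 0) → a + b + c = 0 →
      a = 0 ∧ b = 0 ∧ c = 0) :
    Module.finrank ℤ A + Module.finrank ℤ D + J.card ≤ n := by
  classical
  let e : (J → ℤ) →ₗ[ℤ] (Fin n → ℤ) :=
    { toFun := fun c i => if hi : i ∈ J then c ⟨i, hi⟩ else 0
      map_add' := by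
        intro x y
        funext i
        by_cases hi : i ∈ J <;> simp [hi]
      map_smul' := by
        intro r x
        funext i
        by_cases hi : i ∈ J <;> simp [hi] }
  let f : (A × D × (J → ℤ)) →ₗ[ℤ] (Fin n → ℤ) :=
    A.subtype.coprod (D.subtype.coprod e)
  have hf : Function.Injective f := by
    rw [← LinearMap.ker_eq_bot, LinearMap.ker_eq_bot']
    rintro ⟨a, b, c⟩ habc
    have h1 : (a : Fin n → ℤ) + (b : Fin n → ℤ) + e c = 0 := by
      rw [← habc, add_assoc]
      rfl
    have hc : ∀ i, i ∉ J → e c i = 0 := by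
      intro i hi
      change (if hi : i ∈ J then c ⟨i, hi⟩ else 0) = 0
      rw [dif_neg hi]
    obtain ⟨ha, hb, hc'⟩ := h a a.2 b b.2 (e c) hc h1
    refine Prod.ext (Subtype.ext ha) (Prod.ext (Subtype.ext hb) ?_)
    funext i
    have h2 := congrFun hc' i.1
    change (if hi : i.1 ∈ J then c ⟨i.1, hi⟩ else 0) = 0 at h2
    rw [dif_pos i.2] at h2
    exact h2
  have h1 := LinearMap.finrank_le_finrank_of_injective hf
  rw [Module.finrank_prod, Module.finrank_prod, Module.finrank_fintype_fun_eq_card,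
    Module.finrank_fintype_fun_eq_card, Fintype.card_coe, Fintype.card_fin] at h1
  omega

theorem vander {n : ℕ} (a : Fin n → ℤ) (s : Finset ℕ) (hs : n < s.card)
    (h : ∀ x ∈ s, ∑ i, a i * (x : ℤ) ^ (i : ℕ) = 0) : a = 0 := by
  classical
  let Q : Polynomial ℤ := ∑ i : Fin n, Polynomial.C (a i) * Polynomial.X ^ (i : ℕ)
  have hdeg : Q.natDegree ≤ n := by
    refine Polynomial.natDegree_sum_le_of_forall_le _ _ fun i _ => ?_
    exact (Polynomial.natDegree_C_mul_X_pow_le _ _).trans i.2.le
  have hQ : Q = 0 := by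
    refine Polynomial.eq_zero_of_natDegree_lt_card_of_eval_eq_zero' Q
      (s.image (fun x : ℕ => (x : ℤ))) ?_ ?_
    · intro x hx
      obtain ⟨y, hy, rfl⟩ := Finset.mem_image.1 hx
      have := h y hy
      simpa [Q, Polynomial.eval_finsetSum] using this
    · rw [Finset.card_image_of_injective _ Nat.cast_injective]
      omega
  funext i
  have h1 := congrArg (fun P : Polynomial ℤ => P.coeff i) hQ
  simp only [Q, Polynomial.finsetSum_coeff, Polynomial.coeff_C_mul, Polynomial.coeff_X_pow,
    Polynomial.coeff_zero] at h1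
  rw [Finset.sum_eq_single i] at h1
  · simpa using h1
  · intro j _ hji
    rw [if_neg, mul_zero]
    intro h2
    exact hji (Fin.ext h2.symm)
  · intro h2
    exact absurd (Finset.mem_univ _) h2

end Pool.Agent.LibTT45
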