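import Mathlib
import Pool.Agent.LibTT45.V
import Pool.Agent.LibTT45.B
import Pool.Agent.LibTT45.G

namespace Pool.Agent.LibTT45

open MvPolynomial

/-- The coordinates of index in `J` satisfy no nontrivial polynomial relation on `Z`. -/
def Indep {n : ℕ} (Z : Set (Fin n → ℂˣ)) (J : Finset (Fin n)) : Prop :=
  ∀ P : MvPolynomial (Fin n) ℂ, P.vars ⊆ J →
    (∀ z ∈ Z, eval (fun i => (z i : ℂ)) P = 0) → P = 0

/-- The dimension of the Zariski closure. -/
noncomputable def zdim {n : ℕ} (Z : Set (Fin n → ℂˣ)) : ℕ :=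
  sSup {k | ∃ J : Finset (Fin n), J.card = k ∧ Indep Z J}

/-- The exponents `v` such that the character `z ^ v` is constant on `Z`, equal to the product of
an algebraic unit and a member of `Γ`. -/
def unitRel {n : ℕ} (Γ : Subgroup ℂˣ) (Z : Set (Fin n → ℂˣ)) : Submodule ℤ (Fin n → ℤ) where
  carrier := {v | ∃ u : ℂˣ, ∃ w ∈ Γ, IsIntegral ℤ (u : ℂ) ∧ IsIntegral ℤ ((u⁻¹ : ℂˣ) : ℂ) ∧
    ∀ z ∈ Z, ∏ i, z i ^ v i = u * w}
  zero_mem' := ⟨1, 1, Γ.one_mem, by simpa using isIntegral_one, by simpa using isIntegral_one,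
    fun z _ => by simp⟩
  add_mem' := by
    rintro v w ⟨u, x, hx, hu, hu', h⟩ ⟨u₂, x₂, hx₂, hu₂, hu₂', h₂⟩
    refine ⟨u * u₂, x * x₂, Γ.mul_mem hx hx₂, ?_, ?_, fun z hz => ?_⟩
    · rw [Units.val_mul]
      exact hu.mul hu₂
    · rw [mul_inv, Units.val_mul]
      exact hu'.mul hu₂'
    · rw [mul_mul_mul_comm, ← h z hz, ← h₂ z hz, ← Finset.prod_mul_distrib]
      exact Finset.prod_congr rfl fun i _ => zpow_add _ _ _
  smul_mem' := by
    rintro c v ⟨u, x, hx, hu, hu', h⟩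
    have hz : ∀ z ∈ Z, ∏ i, z i ^ (c • v) i = u ^ c * x ^ c := by
      intro z hz
      rw [← mul_zpow, ← h z hz, ← Finset.prod_zpow]
      refine Finset.prod_congr rfl fun i _ => ?_
      rw [← zpow_mul, mul_comm]
      rfl
    rcases le_total 0 c with hc | hc
    · obtain ⟨k, rfl⟩ := Int.eq_ofNat_of_zero_le hc
      refine ⟨u ^ k, x ^ (k : ℤ), Γ.zpow_mem hx _, ?_, ?_, fun z hz' => by
        rw [hz z hz', zpow_natCast]⟩
      · rw [Units.val_pow_eq_pow_val]
        exact hu.pow k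
      · rw [← inv_pow, Units.val_pow_eq_pow_val]
        exact hu'.pow k
    · obtain ⟨k, hk⟩ := Int.eq_ofNat_of_zero_le (neg_nonneg.2 hc)
      have hc' : c = -(k : ℤ) := by omega
      have huc : u ^ c = (u⁻¹) ^ k := by rw [hc', zpow_neg, zpow_natCast, inv_pow]
      refine ⟨(u⁻¹) ^ k, x ^ c, Γ.zpow_mem hx _, ?_, ?_, fun z hz' => by
        rw [hz z hz', huc]⟩
      · rw [Units.val_pow_eq_pow_val]
        exact hu'.pow k
      · rw [← inv_pow, inv_inv, Units.val_pow_eq_pow_val]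
        exact hu.pow k

theorem zdim_bdd {n : ℕ} (Z : Set (Fin n → ℂˣ)) :
    BddAbove {k | ∃ J : Finset (Fin n), J.card = k ∧ Indep Z J} := by
  refine ⟨n, ?_⟩
  rintro k ⟨J, rfl, -⟩
  simpa using Finset.card_le_univ J

theorem le_zdim {n : ℕ} {Z : Set (Fin n → ℂˣ)} {J : Finset (Fin n)} (h : Indep Z J) :
    J.card ≤ zdim Z := le_csSup (zdim_bdd Z) ⟨J, rfl, h⟩

theorem exists_zdim {n : ℕ} {Z : Set (Fin n → ℂˣ)} (hZ : Z.Nonempty) :
    ∃ J : Finset (Fin n), J.card = zdim Z ∧ Indep Z J := by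
  have hne : {k | ∃ J : Finset (Fin n), J.card = k ∧ Indep Z J}.Nonempty := by
    refine ⟨0, ∅, rfl, fun P hP h => ?_⟩
    obtain ⟨z, hz⟩ := hZ
    have h1 : P.vars = ∅ := Finset.subset_empty.1 hP
    rw [vars_eq_empty_iff_eq_C] at h1
    have h2 := h z hz
    rw [h1, eval_C] at h2
    rw [h1, h2, C_0]
  exact Nat.sSup_mem hne (zdim_bdd Z)

/-- A generic point. -/
theorem gen_pt {n : ℕ} (Z : Set (Fin n → ℂˣ)) (J : Finset (Fin n)) (hJ : Indep Z J) :
    ∃ (L : Type) (_ : Field L) (_ : Algebra ℂ L) (ζ : Fin n → L), (∀ i, ζ i ≠ 0) ∧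
      (∀ P : MvPolynomial (Fin n) ℂ, (∀ z ∈ Z, eval (fun i => (z i : ℂ)) P = 0) →
        aeval ζ P = 0) ∧ AlgebraicIndependent ℂ (fun j : J => ζ j) := by
  classical
  let I : Ideal (MvPolynomial (Fin n) ℂ) :=
    { carrier := {P | ∀ z ∈ Z, eval (fun i => (z i : ℂ)) P = 0}
      add_mem' := by
        intro a b ha hb z hz
        rw [map_add, ha z hz, hb z hz, add_zero]
      zero_mem' := fun z _ => map_zero _
      smul_mem' := by
        intro c x hx z hz
        rw [smul_eq_mul, map_mul, hx z hz, mul_zero] }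
  let S : Submonoid (MvPolynomial (Fin n) ℂ) :=
    { carrier := {F | ∃ (Q : MvPolynomial (Fin n) ℂ) (α : Fin n →₀ ℕ), Q ≠ 0 ∧ Q.vars ⊆ J ∧
        F = Q * monomial α 1}
      one_mem' := ⟨1, 0, one_ne_zero, by simp, by simp⟩
      mul_mem' := by
        rintro a b ⟨Q, α, hQ, hQ', rfl⟩ ⟨Q₂, α₂, hQ₂, hQ₂', rfl⟩
        refine ⟨Q * Q₂, α + α₂, mul_ne_zero hQ hQ₂,
          (vars_mul Q Q₂).trans (Finset.union_subset hQ' hQ₂'), ?_⟩
        have h1 : (monomial (α + α₂) (1 : ℂ)) = monomial α 1 * monomial α₂ 1 := by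
          rw [monomial_mul, mul_one]
        rw [h1]
        ring }
  have hdisj : Disjoint (I : Set (MvPolynomial (Fin n) ℂ)) S := by
    rw [Set.disjoint_left]
    rintro F hF ⟨Q, α, hQ, hQ', rfl⟩
    apply hQ
    apply hJ Q hQ'
    intro z hz
    have h1 := hF z hz
    rw [map_mul, eval_monomial, one_mul] at h1
    rcases mul_eq_zero.1 h1 with h2 | h2
    · exact h2
    · exfalso
      revert h2
      exact Finset.prod_ne_zero_iff.2 fun i _ => pow_ne_zero _ (Units.ne_zero _)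
  obtain ⟨q, hq, hIq, hqS⟩ := Ideal.exists_le_prime_disjoint I S hdisj
  have hdom : IsDomain (MvPolynomial (Fin n) ℂ ⧸ q) := Ideal.Quotient.isDomain q
  let L := FractionRing (MvPolynomial (Fin n) ℂ ⧸ q)
  let φ : MvPolynomial (Fin n) ℂ →ₐ[ℂ] L :=
    (IsScalarTower.toAlgHom ℂ (MvPolynomial (Fin n) ℂ ⧸ q) L).comp (Ideal.Quotient.mkₐ ℂ q)
  have hφ : ∀ P, φ P = 0 ↔ P ∈ q := by
    intro P
    change algebraMap (MvPolynomial (Fin n) ℂ ⧸ q) L (Ideal.Quotient.mk q P) = 0 ↔ _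
    rw [map_eq_zero_iff _ (IsFractionRing.injective (MvPolynomial (Fin n) ℂ ⧸ q) L),
      Ideal.Quotient.eq_zero_iff_mem]
  have hφ' : ∀ P, aeval (fun i => φ (X i)) P = φ P := by
    intro P
    have : aeval (fun i => φ (X i)) = φ := by
      apply MvPolynomial.algHom_ext
      intro i
      rw [aeval_X]
    rw [this]
  refine ⟨L, inferInstance, inferInstance, fun i => φ (X i), fun i h => ?_, fun P hP => ?_, ?_⟩
  · rw [hφ] at h
    refine Set.disjoint_left.1 hqS h ⟨1, Finsupp.single i 1, one_ne_zero, by simp, ?_⟩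
    rw [one_mul]
    rfl
  · rw [hφ', hφ]
    exact hIq hP
  · rw [algebraicIndependent_iff]
    intro p hp
    have h1 : aeval (fun i => φ (X i)) (rename (Subtype.val : J → Fin n) p) = 0 := by
      rw [aeval_rename]
      exact hp
    rw [hφ', hφ] at h1
    by_contra hp0
    refine Set.disjoint_left.1 hqS h1 ⟨rename (Subtype.val : J → Fin n) p, 0, ?_, ?_, ?_⟩
    · intro h2
      exact hp0 (rename_injective _ Subtype.val_injective (by rw [h2, map_zero]))
    · intro i hi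
      have h3 := vars_rename (Subtype.val : J → Fin n) p hi
      rw [Finset.mem_image] at h3
      obtain ⟨k, -, rfl⟩ := h3
      exact k.2
    · rw [show (monomial (0 : Fin n →₀ ℕ) (1 : ℂ)) = 1 from rfl, mul_one]

end Pool.Agent.LibTT45
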