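import Mathlib
import Pool.Agent.LibTT45.M
import Pool.Agent.LibTT45.A

namespace Pool.Agent.LibTT45

open MvPolynomial

/-- Tropical lemma: the largest value is attained twice. -/
theorem trop {n : ℕ} {L : Type*} [Field L] [Algebra ℂ L] (V : ValuationSubring L)
    (ζ : Fin n → L) (hζ : ∀ i, ζ i ≠ 0) (P : MvPolynomial (Fin n) ℂ) (hP : P ≠ 0)
    (hc : ∀ α ∈ P.support, V.valuation (algebraMap ℂ L (coeff α P)) = 1)
    (h0 : aeval ζ P = 0) :
    ∃ α ∈ P.support, ∃ β ∈ P.support, α ≠ β ∧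
      V.valuation (∏ i, ζ i ^ ((α i : ℤ) - (β i : ℤ))) = 1 := by
  classical
  have hne : ∀ α : Fin n →₀ ℕ, ∏ i, ζ i ^ α i ≠ 0 := fun α =>
    Finset.prod_ne_zero_iff.2 fun i _ => pow_ne_zero _ (hζ i)
  obtain ⟨α, hα, hmax⟩ := Finset.exists_max_image P.support
    (fun α => V.valuation (∏ i, ζ i ^ α i)) (support_nonempty.2 hP)
  have hsum : ∑ α ∈ P.support, algebraMap ℂ L (coeff α P) * ∏ i, ζ i ^ α i = 0 := by
    rw [← h0, aeval_def, eval₂_eq']
  by_contra hcon
  push Not at hcon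
  have hlt : ∀ β ∈ P.support.erase α,
      V.valuation (algebraMap ℂ L (coeff β P) * ∏ i, ζ i ^ β i) <
        V.valuation (algebraMap ℂ L (coeff α P) * ∏ i, ζ i ^ α i) := by
    intro β hβ
    have hβs := Finset.mem_of_mem_erase hβ
    rw [map_mul, map_mul, hc β hβs, hc α hα, one_mul, one_mul]
    refine lt_of_le_of_ne (hmax β hβs) fun heq => ?_
    refine hcon α hα β hβs (Finset.ne_of_mem_erase hβ).symm ?_
    have h1 : ∏ i, ζ i ^ ((α i : ℤ) - (β i : ℤ)) = (∏ i, ζ i ^ α i) / ∏ i, ζ i ^ β i := by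
      rw [← Finset.prod_div_distrib]
      refine Finset.prod_congr rfl fun i _ => ?_
      rw [zpow_sub₀ (hζ i), zpow_natCast, zpow_natCast]
    rw [h1, map_div₀, heq, div_self]
    exact (Valuation.ne_zero_iff _).2 (hne α)
  have h2 : V.valuation (∑ α ∈ P.support, algebraMap ℂ L (coeff α P) * ∏ i, ζ i ^ α i) =
      V.valuation (algebraMap ℂ L (coeff α P) * ∏ i, ζ i ^ α i) := by
    refine V.valuation.map_sum_eq_of_lt hα ?_
    intro β hβ
    exact hlt β (by
      rw [Finset.mem_sdiff, Finset.mem_singleton] at hβ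
      exact Finset.mem_erase.2 ⟨hβ.2, hβ.1⟩)
  rw [hsum, map_zero, map_mul, hc α hα, one_mul] at h2
  exact (Valuation.ne_zero_iff V.valuation).2 (hne α) h2.symm

theorem prod_zpow_sum {ι G : Type*} [CommGroupWithZero G] (s : Finset ι) (x : G) (hx : x ≠ 0)
    (f : ι → ℤ) : ∏ i ∈ s, x ^ f i = x ^ ∑ i ∈ s, f i := by
  classical
  induction s using Finset.induction_on with
  | empty => simp
  | insert a s ha ih => rw [Finset.prod_insert ha, Finset.sum_insert ha, zpow_add₀ hx, ih]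

/-- Value of a member of a congruence class. -/
theorem val_g {L : Type*} [Field L] (V : ValuationSubring L) (p c k M : ℕ)
    (hp : V.valuation (p : L) < 1) (hp0 : (p : L) ≠ 0) (hc : Nat.Coprime p c)
    (hM : p ^ (k + 1) ∣ M) (h : L) (hh : V.valuation h ≤ 1) :
    V.valuation (((p ^ k * c : ℕ) : L) + (M : L) * h) = V.valuation (p : L) ^ k := by
  have hpos : 0 < V.valuation (p : L) := zero_lt_iff.2 ((Valuation.ne_zero_iff _).2 hp0)
  have h1 : V.valuation ((p ^ k * c : ℕ) : L) = V.valuation (p : L) ^ k := by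
    push_cast
    rw [map_mul, map_pow, val_coprime V p c hp hc, mul_one]
  have h2 : V.valuation ((M : L) * h) < V.valuation (p : L) ^ k := by
    obtain ⟨M', rfl⟩ := hM
    push_cast
    rw [map_mul, map_mul, map_pow, pow_succ]
    calc V.valuation (p : L) ^ k * V.valuation (p : L) * V.valuation (M' : L) * V.valuation h
        ≤ V.valuation (p : L) ^ k * V.valuation (p : L) * 1 * 1 := by
          gcongr
          exact val_nat V M'
      _ < V.valuation (p : L) ^ k := by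
          rw [mul_one, mul_one]
          exact mul_lt_of_lt_one_right (pow_pos hpos k) hp
  rw [← h1] at h2 ⊢
  exact V.valuation.map_add_eq_of_lt_left h2

theorem zpow_key {n : ℕ} {F : Type*} [Field F] (v : Fin n → ℤ) (x : Fin n → F)
    (hx : ∀ i, x i ≠ 0) (w : F) :
    ∏ i, x i ^ v i = w ↔ ∏ i, x i ^ (v i).toNat - w * ∏ i, x i ^ (-(v i)).toNat = 0 := by
  have h1 : ∏ i, x i ^ v i = (∏ i, x i ^ (v i).toNat) / ∏ i, x i ^ (-(v i)).toNat := by
    rw [← Finset.prod_div_distrib]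
    refine Finset.prod_congr rfl fun i _ => ?_
    rw [← zpow_natCast, ← zpow_natCast, ← zpow_sub₀ (hx i)]
    congr 1
    omega
  have h2 : ∏ i, x i ^ (-(v i)).toNat ≠ 0 :=
    Finset.prod_ne_zero_iff.2 fun i _ => pow_ne_zero _ (hx i)
  rw [h1, div_eq_iff h2, sub_eq_zero]

/-- A relation on `gZ` at the generic point. -/
theorem rel_pt {n : ℕ} (Γ : Subgroup ℂˣ) (Z : Set (Fin n → ℂˣ)) (g : Fin n → ℂˣ) {L : Type*} [Field L]
    [Algebra ℂ L] (ζ : Fin n → L) (hζ : ∀ i, ζ i ≠ 0)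
    (hZ : ∀ P : MvPolynomial (Fin n) ℂ, (∀ z ∈ Z, eval (fun i => (z i : ℂ)) P = 0) →
        aeval ζ P = 0) (v : Fin n → ℤ) (hv : v ∈ unitRel Γ ((fun z => g * z) '' Z)) :
    ∃ u : ℂˣ, ∃ w ∈ Γ, IsIntegral ℤ (u : ℂ) ∧ IsIntegral ℤ ((u⁻¹ : ℂˣ) : ℂ) ∧
      (∏ i, (algebraMap ℂ L (g i : ℂ)) ^ v i) * ∏ i, ζ i ^ v i =
        algebraMap ℂ L (u : ℂ) * algebraMap ℂ L (w : ℂ) := by
  obtain ⟨u₁, w, hw, hu, hu', h⟩ := hv
  refine ⟨u₁, w, hw, hu, hu', ?_⟩
  rw [← map_mul, ← Units.val_mul]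
  set u := u₁ * w
  let P : MvPolynomial (Fin n) ℂ := ∏ i, (C (g i : ℂ) * X i) ^ (v i).toNat -
    C (u : ℂ) * ∏ i, (C (g i : ℂ) * X i) ^ (-(v i)).toNat
  have hP : aeval ζ P = 0 := by
    apply hZ
    intro z hz
    have h1 : ∏ i, ((g i : ℂ) * (z i : ℂ)) ^ v i = (u : ℂ) := by
      have h2 := h (g * z) ⟨z, hz, rfl⟩
      rw [← h2]
      push_cast
      refine Finset.prod_congr rfl fun i _ => ?_
      rw [Pi.mul_apply]
      push_cast
      rfl
    rw [zpow_key _ _ (fun i => mul_ne_zero (Units.ne_zero _) (Units.ne_zero _))] at h1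
    simpa only [P, map_sub, map_mul, map_prod, map_pow, eval_C, eval_X] using h1
  have hg : ∀ i, algebraMap ℂ L (g i : ℂ) ≠ 0 := fun i =>
    (map_ne_zero (algebraMap ℂ L)).2 (Units.ne_zero _)
  rw [← Finset.prod_mul_distrib]
  have h3 : ∏ i, (algebraMap ℂ L (g i : ℂ) * ζ i) ^ v i = algebraMap ℂ L (u : ℂ) := by
    rw [zpow_key _ _ (fun i => mul_ne_zero (hg i) (hζ i))]
    simpa only [P, map_sub, map_mul, map_prod, map_pow, aeval_C, aeval_X] using hP
  rw [← h3]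
  exact Finset.prod_congr rfl fun i _ => (mul_zpow _ _ _).symm

end Pool.Agent.LibTT45
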