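import Mathlib
import Pool.Agent.LibTT45.R

namespace Pool.Agent.LibTT45

open MvPolynomial

theorem main (n : ℕ) (Y : Set (Fin n → ℂˣ)) (Γ : Subgroup ℂˣ) (hΓ : Γ.FG) :
    ∃ (M : ℕ) (a : Fin n → ℕ), 0 < M ∧ (∀ i, 0 < a i) ∧
      ∀ g : Fin n → ℂ, (∀ i, ∃ h : ℂ, IsIntegral ℤ h ∧ g i = a i + M * h) →
        ∃ γ : Fin n → ℂˣ, (∀ i, (γ i : ℂ) = g i) ∧
          ∀ Z ⊆ Y, Z.Nonempty →
            Module.finrank ℤ (unitRel Γ ((fun z => γ * z) '' Z)) + zdim Z ≤ zdim Y := by
  classical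
  set d := zdim Y with hd
  -- the polynomials
  have hex : ∀ I : Finset (Fin n), ∃ P : MvPolynomial (Fin n) ℂ, I.card = d + 1 →
      P ≠ 0 ∧ P.vars ⊆ I ∧ ∀ z ∈ Y, eval (fun i => (z i : ℂ)) P = 0 := by
    intro I
    by_cases hI : I.card = d + 1
    · have h1 : ¬ Indep Y I := by
        intro h
        have := le_zdim h
        omega
      unfold Indep at h1
      push Not at h1
      obtain ⟨P, hP1, hP2, hP3⟩ := h1
      exact ⟨P, fun _ => ⟨hP3, hP1, hP2⟩⟩
    · exact ⟨0, fun h => absurd h hI⟩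
  choose P hP using hex
  let Is : Finset (Finset (Fin n)) := Finset.powersetCard (d + 1) Finset.univ
  have hIs : ∀ I, I ∈ Is ↔ I.card = d + 1 := by
    intro I
    simp [Is, Finset.mem_powersetCard]
  obtain ⟨Γ₀, hΓ₀⟩ := hΓ
  let C : Finset ℂ := (Is.biUnion fun I => (P I).support.image fun α => coeff α (P I)) ∪
    Γ₀.image (fun x : ℂˣ => (x : ℂ))
  let S : Finset (Fin n → ℤ) := Is.biUnion fun I =>
    ((P I).support ×ˢ (P I).support).image fun α => fun i => (α.1 i : ℤ) - (α.2 i : ℤ)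
  have hC : ∀ c ∈ C, c ≠ 0 := by
    intro c hc
    simp only [C, Finset.mem_union, Finset.mem_biUnion, Finset.mem_image] at hc
    rcases hc with ⟨I, -, α, hα, rfl⟩ | ⟨x, -, rfl⟩
    · exact mem_support_iff.1 hα
    · exact Units.ne_zero x
  obtain ⟨N, hN, hbase⟩ := base_val C hC
  -- primes
  let K : ℕ := S.powerset.card * n + 1
  let p : ℕ → ℕ := fun s => Nat.nth Nat.Prime (N + s)
  have hpp : ∀ s, (p s).Prime := fun s => Nat.prime_nth_prime _
  have hpN : ∀ s, ¬ p s ∣ N := by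
    intro s hs
    have h1 := Nat.le_of_dvd hN hs
    have h2 := Nat.add_two_le_nth_prime (N + s)
    change Nat.nth Nat.Prime (N + s) ≤ N at h1
    omega
  have hpinj : ∀ s t, s ≠ t → Nat.Coprime (p s) (p t) := by
    intro s t hst
    rw [Nat.coprime_primes (hpp s) (hpp t)]
    intro h
    have := Nat.nth_injective Nat.infinite_setOfPred_prime h
    omega
  let a : Fin n → ℕ := fun i => ∏ s ∈ Finset.range K, p s ^ (s ^ (i : ℕ))
  let M : ℕ := ∏ s ∈ Finset.range K, p s ^ (K ^ n + 1)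
  have ha : ∀ i, ∀ s ∈ Finset.range K, ∃ c, Nat.Coprime (p s) c ∧
      a i = p s ^ (s ^ (i : ℕ)) * c := by
    intro i s hs
    refine ⟨∏ t ∈ (Finset.range K).erase s, p t ^ (t ^ (i : ℕ)), ?_, ?_⟩
    · exact Nat.Coprime.prod_right fun t ht =>
        (hpinj s t (Finset.ne_of_mem_erase ht).symm).pow_right _
    · exact (Finset.mul_prod_erase _ _ hs).symm
  have hM : ∀ i : Fin n, ∀ s ∈ Finset.range K, p s ^ (s ^ (i : ℕ) + 1) ∣ M := by
    intro i s hs
    refine dvd_trans (pow_dvd_pow _ ?_) (Finset.dvd_prod_of_mem _ hs)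
    have h1 : s ^ (i : ℕ) ≤ K ^ n := by
      calc s ^ (i : ℕ) ≤ K ^ (i : ℕ) := Nat.pow_le_pow_left (Finset.mem_range.1 hs).le _
        _ ≤ K ^ n := Nat.pow_le_pow_right (Nat.succ_pos _) i.2.le
    omega
  have hM0 : 0 < M := Finset.prod_pos fun s _ => pow_pos (hpp s).pos _
  have ha0 : ∀ i, 0 < a i := fun i => Finset.prod_pos fun s _ => pow_pos (hpp s).pos _
  refine ⟨M, a, hM0, ha0, fun g hg => ?_⟩
  -- value of `g` at a valuation ring above `p s`
  have hval : ∀ {L : Type} [Field L] [Algebra ℂ L] (V : ValuationSubring L) (s : ℕ),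
      s ∈ Finset.range K → V.valuation ((p s : ℕ) : L) < 1 → ∀ i,
        V.valuation (algebraMap ℂ L (g i)) = V.valuation ((p s : ℕ) : L) ^ (s ^ (i : ℕ)) := by
    intro L _ _ V s hs hV i
    have hchar : CharZero L := charZero_of_injective_algebraMap (algebraMap ℂ L).injective
    obtain ⟨h, hh, hgi⟩ := hg i
    obtain ⟨c, hc, hac⟩ := ha i s hs
    rw [hgi, hac, map_add, map_mul, map_natCast, map_natCast]
    refine val_g V (p s) c _ M hV (Nat.cast_ne_zero.2 (hpp s).ne_zero) hc (hM i s hs) _ ?_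
    exact val_integral V _ (hh.map (algebraMap ℂ L).toIntAlgHom)
  have hg0 : ∀ i, g i ≠ 0 := by
    intro i h0
    obtain ⟨V, hV, -⟩ := hbase (p 0) (hpp 0) (hpN 0)
    have h1 := hval V 0 (Finset.mem_range.2 (Nat.succ_pos _)) hV i
    rw [h0, map_zero, map_zero] at h1
    refine pow_ne_zero _ ?_ h1.symm
    exact (Valuation.ne_zero_iff V.valuation).2 (Nat.cast_ne_zero.2 (hpp 0).ne_zero)
  let γ : Fin n → ℂˣ := fun i => Units.mk0 (g i) (hg0 i)
  refine ⟨γ, fun i => rfl, fun Z hZY hZ => ?_⟩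
  obtain ⟨J, hJc, hJ⟩ := exists_zdim hZ
  obtain ⟨L, _, _, ζ, hζ, hζZ, hζJ⟩ := gen_pt Z J hJ
  have hchar : CharZero L := charZero_of_injective_algebraMap (algebraMap ℂ L).injective
  -- valuation rings
  have hVex : ∀ s : ℕ, ∃ V : ValuationSubring L, V.valuation ((p s : ℕ) : L) < 1 ∧
      (∀ c ∈ C, V.valuation (algebraMap ℂ L c) = 1) ∧
      ∀ b : Fin n → ℤ, (∀ i, i ∉ J → b i = 0) → ∀ c : ℂ, c ≠ 0 →
        V.valuation (algebraMap ℂ L c * ∏ i, ζ i ^ b i) = 1 → b = 0 := by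
    intro s
    obtain ⟨V₁, hV₁, hV₁C⟩ := hbase (p s) (hpp s) (hpN s)
    -- extend to `L`
    let j : V₁ →+* L := (algebraMap ℂ L).comp V₁.subtype
    obtain ⟨V₂, hV₂, hV₂'⟩ := chev j
      (fun x y h => Subtype.ext ((algebraMap ℂ L).injective h)) (IsLocalRing.residue V₁)
    have h21 : ∀ c : ℂ, V₁.valuation c ≤ 1 → V₂.valuation (algebraMap ℂ L c) ≤ 1 := by
      intro c hc
      exact hV₂ ⟨c, (ValuationSubring.valuation_le_one_iff V₁ c).1 hc⟩
    have h22 : ∀ c : ℂ, V₁.valuation c < 1 → V₂.valuation (algebraMap ℂ L c) < 1 := by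
      intro c hc
      refine hV₂' ⟨c, (ValuationSubring.valuation_le_one_iff V₁ c).1 hc.le⟩ ?_
      rw [IsLocalRing.residue_eq_zero_iff]
      exact (ValuationSubring.valuation_lt_one_iff V₁ ⟨c, _⟩).2 hc
    obtain ⟨V, hV1, hV2, hV3⟩ := gen_val ζ hζ J hζJ V₂
    refine ⟨V, ?_, fun c hc => ?_, hV3⟩
    · have := hV2 (p s : ℂ) (h22 _ hV₁)
      rwa [map_natCast] at this
    · have hc0 := hC c hc
      have h1 : V.valuation (algebraMap ℂ L c) ≤ 1 := hV1 c (h21 c (hV₁C c hc).le)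
      have h2 : V.valuation (algebraMap ℂ L c⁻¹) ≤ 1 := hV1 c⁻¹ (h21 c⁻¹ (by
        rw [map_inv₀, hV₁C c hc, inv_one]))
      apply le_antisymm h1
      rw [map_inv₀, map_inv₀] at h2
      have h0 : V.valuation (algebraMap ℂ L c) ≠ 0 :=
        (Valuation.ne_zero_iff V.valuation).2 ((map_ne_zero (algebraMap ℂ L)).2 hc0)
      exact (inv_le_one₀ (zero_lt_iff.2 h0)).1 h2
  choose V hVp hVC hVJ using hVex
  let D : ℕ → Finset (Fin n → ℤ) := fun s => S.filter fun v => (V s).valuation (∏ i, ζ i ^ v i) = 1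
  obtain ⟨D₀, hD₀, hcard⟩ := Finset.exists_lt_card_fiber_of_mul_lt_card_of_maps_to
    (s := Finset.range K) (t := S.powerset) (f := D) (n := n)
    (fun s _ => Finset.mem_powerset.2 (Finset.filter_subset _ _))
    (by rw [Finset.card_range]; exact Nat.lt_succ_self _)
  set T : Finset ℕ := (Finset.range K).filter fun s => D s = D₀ with hT
  obtain ⟨s₀, hs₀⟩ : T.Nonempty := Finset.card_pos.1 (by omega)
  let Δ : Submodule ℤ (Fin n → ℤ) := Submodule.span ℤ (D₀ : Set (Fin n → ℤ))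
  have hprodne : ∀ v : Fin n → ℤ, ∏ i, ζ i ^ v i ≠ 0 := fun v =>
    Finset.prod_ne_zero_iff.2 fun i _ => zpow_ne_zero _ (hζ i)
  have hadd : ∀ v w : Fin n → ℤ, ∏ i, ζ i ^ (v + w) i = (∏ i, ζ i ^ v i) * ∏ i, ζ i ^ w i := by
    intro v w
    rw [← Finset.prod_mul_distrib]
    exact Finset.prod_congr rfl fun i _ => zpow_add₀ (hζ i) _ _
  -- members of `Δ` have value one
  have hΔ : ∀ s ∈ T, ∀ v ∈ Δ, (V s).valuation (∏ i, ζ i ^ v i) = 1 := by
    intro s hs v hv
    have hsD : D s = D₀ := (Finset.mem_filter.1 hs).2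
    induction hv using Submodule.span_induction with
    | mem x hx =>
      rw [Finset.mem_coe, ← hsD] at hx
      exact (Finset.mem_filter.1 hx).2
    | zero => simp
    | add x y _ _ hx hy => rw [hadd, map_mul, hx, hy, one_mul]
    | smul r x _ hx =>
      have h1 : ∏ i, ζ i ^ (r • x) i = (∏ i, ζ i ^ x i) ^ r := by
        rw [← Finset.prod_zpow]
        refine Finset.prod_congr rfl fun i _ => ?_
        rw [← zpow_mul, mul_comm]
        rfl
      rw [h1, map_zpow₀, hx, one_zpow]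
  -- rank of `Δ`
  have hrank : n ≤ d + Module.finrank ℤ Δ := by
    apply rank_lemma
    intro I hI
    obtain ⟨hP0, hPv, hPY⟩ := hP I hI
    have hIm : I ∈ Is := (hIs I).2 hI
    obtain ⟨α, hα, β, hβ, hne, hv⟩ := trop (V s₀) ζ hζ (P I) hP0
      (fun α hα => hVC s₀ _ (by
        simp only [C, Finset.mem_union, Finset.mem_biUnion, Finset.mem_image]
        exact Or.inl ⟨I, hIm, α, hα, rfl⟩))
      (hζZ (P I) fun z hz => hPY z (hZY hz))
    refine ⟨fun i => (α i : ℤ) - (β i : ℤ), ?_, ?_, ?_⟩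
    · apply Submodule.subset_span
      rw [Finset.mem_coe, ← (Finset.mem_filter.1 hs₀).2]
      refine Finset.mem_filter.2 ⟨?_, hv⟩
      simp only [S, Finset.mem_biUnion, Finset.mem_image]
      exact ⟨I, hIm, (α, β), Finset.mem_product.2 ⟨hα, hβ⟩, rfl⟩
    · intro h
      apply hne
      ext i
      have := congrFun h i
      simp only [Pi.zero_apply] at this
      omega
    · intro i hi
      have h1 : ∀ δ ∈ (P I).support, δ i = 0 := by
        intro δ hδ
        by_contra h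
        exact hi (hPv ((mem_vars_iff_mem_support i).2 ⟨δ, hδ, Finsupp.mem_support_iff.2 h⟩))
      change (α i : ℤ) - (β i : ℤ) = 0
      rw [h1 α hα, h1 β hβ, sub_self]
  have hΓ1 : ∀ s, ∀ y ∈ Γ, (V s).valuation (algebraMap ℂ L (y : ℂ)) = 1 := by
    intro s y hy
    rw [← hΓ₀] at hy
    induction hy using Subgroup.closure_induction with
    | mem x hx =>
      refine hVC s _ ?_
      simp only [C, Finset.mem_union, Finset.mem_image]
      exact Or.inr ⟨x, hx, rfl⟩
    | one => simp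
    | mul x x' _ _ hx hx' => rw [Units.val_mul, map_mul, map_mul, hx, hx', one_mul]
    | inv x _ hx => rw [Units.val_inv_eq_inv_val, map_inv₀, map_inv₀, hx, inv_one]
  -- independence
  have hsum := sum_lemma (unitRel Γ ((fun z => γ * z) '' Z)) Δ J (by
    intro v hv w hw x hx hvwx
    obtain ⟨u, y, hy, hu, hu', huv⟩ := rel_pt Γ Z γ ζ hζ hζZ v hv
    have hrel : ∀ s ∈ T, (V s).valuation (∏ i, ζ i ^ v i) =
        (V s).valuation ((p s : ℕ) : L) ^ (-∑ i, v i * (s : ℤ) ^ (i : ℕ)) := by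
      intro s hs
      have hsK : s ∈ Finset.range K := (Finset.mem_filter.1 hs).1
      have hπ0 : (V s).valuation ((p s : ℕ) : L) ≠ 0 :=
        (Valuation.ne_zero_iff (V s).valuation).2 (Nat.cast_ne_zero.2 (hpp s).ne_zero)
      have h1 := congrArg (V s).valuation huv
      have hu1 : (V s).valuation (algebraMap ℂ L (u : ℂ)) = 1 := by
        apply le_antisymm
        · exact val_integral _ _ (hu.map (algebraMap ℂ L).toIntAlgHom)
        · have h2 : (V s).valuation (algebraMap ℂ L ((u⁻¹ : ℂˣ) : ℂ)) ≤ 1 :=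
            val_integral _ _ (hu'.map (algebraMap ℂ L).toIntAlgHom)
          rw [Units.val_inv_eq_inv_val, map_inv₀, map_inv₀] at h2
          have h0 : (V s).valuation (algebraMap ℂ L (u : ℂ)) ≠ 0 :=
            (Valuation.ne_zero_iff (V s).valuation).2
              ((map_ne_zero (algebraMap ℂ L)).2 (Units.ne_zero u))
          exact (inv_le_one₀ (zero_lt_iff.2 h0)).1 h2
      have hy1 := hΓ1 s y hy
      rw [map_mul, map_mul, hu1, hy1, one_mul, map_prod] at h1
      have h3 : ∏ i, (V s).valuation (algebraMap ℂ L (γ i : ℂ) ^ v i) =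
          (V s).valuation ((p s : ℕ) : L) ^ (∑ i, v i * (s : ℤ) ^ (i : ℕ)) := by
        rw [← prod_zpow_sum _ _ hπ0]
        refine Finset.prod_congr rfl fun i _ => ?_
        rw [map_zpow₀]
        change (V s).valuation (algebraMap ℂ L (g i)) ^ v i = _
        rw [hval (V s) s hsK (hVp s) i, ← zpow_natCast, ← zpow_mul, mul_comm]
        push_cast
        rfl
      rw [h3] at h1
      rw [zpow_neg]
      exact eq_inv_of_mul_eq_one_right h1
    have hxs : ∀ s ∈ T, x = 0 ∧ ∑ i, v i * (s : ℤ) ^ (i : ℕ) = 0 := by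
      intro s hs
      have hπ0 : (V s).valuation ((p s : ℕ) : L) ≠ 0 :=
        (Valuation.ne_zero_iff (V s).valuation).2 (Nat.cast_ne_zero.2 (hpp s).ne_zero)
      set e : ℤ := ∑ i, v i * (s : ℤ) ^ (i : ℕ) with he
      have h1 : (∏ i, ζ i ^ v i) * (∏ i, ζ i ^ w i) * ∏ i, ζ i ^ x i = 1 := by
        rw [← hadd, ← hadd, hvwx]
        simp
      have h2 := congrArg (V s).valuation h1
      rw [map_mul, map_mul, hΔ s hs w hw, hrel s hs, mul_one, map_one] at h2
      have h3 : (V s).valuation (∏ i, ζ i ^ x i) = (V s).valuation ((p s : ℕ) : L) ^ e := by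
        rw [zpow_neg] at h2
        exact (inv_mul_eq_one₀ (zpow_ne_zero _ hπ0)).1 h2 |>.symm
      have hx0 : x = 0 := by
        refine hVJ s x hx (((p s : ℕ) : ℂ) ^ (-e)) (zpow_ne_zero _
          (Nat.cast_ne_zero.2 (hpp s).ne_zero)) ?_
        rw [map_zpow₀, map_natCast, map_mul, map_zpow₀, h3, zpow_neg,
          inv_mul_cancel₀ (zpow_ne_zero _ hπ0)]
      refine ⟨hx0, ?_⟩
      rw [hx0] at h3
      simp only [Pi.zero_apply, zpow_zero, Finset.prod_const_one, map_one] at h3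
      by_contra hne
      exact ((zpow_right_injective₀ (zero_lt_iff.2 hπ0) (hVp s).ne).ne hne)
        (by rw [← h3, zpow_zero])
    have hx0 : x = 0 := (hxs s₀ hs₀).1
    have hv0 : v = 0 := vander v T hcard fun s hs => (hxs s hs).2
    refine ⟨hv0, ?_, hx0⟩
    rw [hv0, hx0, zero_add, add_zero] at hvwx
    exact hvwx)
  rw [hJc] at hsum
  omega

end Pool.Agent.LibTT45
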